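import Mathlib
import Pool.Agent.V11243.FillPara

/-!
# No Korovin orbit is paracompact
-/

namespace Pool.Agent.Results.MP_f351c6_gt.NoParacompactKorovin

open Pool.Agent.V11243.FillPara

universe u v

/-- The function `gf : x ↦ f (x g)`. -/
def act {X : Type u} {G : Type v} [CommGroup G] (g : G) (f : G → X) : G → X := fun x => f (x * g)

/-- The orbit `G_f ⊆ X^G` (which carries the subspace topology of the product topology). -/
def Orbit {X : Type u} {G : Type v} [CommGroup G] (f : G → X) : Set (G → X) :=
  Set.range fun g : G => act g f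

/-- `f` is a Korovin mapping: `π_M(G_f) = X^M` for every countable `M ⊆ G`. -/
def IsKorovin {X : Type u} {G : Type v} [CommGroup G] (f : G → X) : Prop :=
  ∀ M : Set G, M.Countable → ∀ y : M → X, ∃ h ∈ Orbit f, ∀ m : M, h m = y m

theorem result {X : Type u} [TopologicalSpace X] [Nontrivial X] {G : Type v} [CommGroup G]
    (f : G → X) (hf : IsKorovin f) :
    ¬ (T2Space (Orbit f) ∧ ParacompactSpace (Orbit f)) := by
  rintro ⟨h1, h2⟩
  have hfill : FillsCountable (I := G) (X := fun _ => X) (Orbit f) := hf
  have hne : (Orbit f).Nonempty := ⟨act 1 f, 1, rfl⟩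
  have key := fun x => inseparable_of_paracompact (I := G) (X := fun _ => X) hfill hne x
  have hmk : ∀ φ : G → SeparationQuotient X, ∃ g : G, ∀ h, SeparationQuotient.mk (f (h * g)) = φ h := by
    intro φ
    choose x hx using fun h => SeparationQuotient.surjective_mk (φ h)
    obtain ⟨d, ⟨g, rfl⟩, hd⟩ := key x
    refine ⟨g, fun h => ?_⟩
    rw [← hx h, SeparationQuotient.mk_eq_mk]
    exact ((inseparable_pi.1 hd) h).symm
  by_cases hY : ∃ y0 y1 : SeparationQuotient X, y0 ≠ y1
  · obtain ⟨y0, y1, hne⟩ := hY
    classical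
    apply Function.cantor_surjective
      (fun g : G => {h : G | SeparationQuotient.mk (f (h * g)) = y0})
    intro S
    obtain ⟨g, hg⟩ := hmk (fun h => if h ∈ S then y0 else y1)
    refine ⟨g, ?_⟩
    ext h
    simp only [Set.mem_ofPred_eq]
    rw [hg h]
    by_cases hS : h ∈ S
    · simp [hS]
    · simp [hS, hne.symm]
  · push Not at hY
    obtain ⟨a, b, hab⟩ := exists_pair_ne X
    obtain ⟨d, hd, hda⟩ := hf {1} (Set.countable_singleton 1) (fun _ => a)
    obtain ⟨e, he, heb⟩ := hf {1} (Set.countable_singleton 1) (fun _ => b)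
    have hda := hda ⟨1, rfl⟩
    have heb := heb ⟨1, rfl⟩
    have hde : d ≠ e := by
      intro h
      apply hab
      rw [← hda, ← heb, h]
    have hins : Inseparable (⟨d, hd⟩ : Orbit f) ⟨e, he⟩ := by
      rw [subtype_inseparable_iff]
      rw [inseparable_pi]
      intro h
      exact SeparationQuotient.mk_eq_mk.1 (hY _ _)
    exact hde (congrArg Subtype.val hins.eq)

end Pool.Agent.Results.MP_f351c6_gt.NoParacompactKorovin
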